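import Mathlib
import Pool.Agent.P8H30.SW.Stm

set_option autoImplicit false
set_option linter.unusedSimpArgs false

/-!
# SW/C2: irreducible Lie algebras of skew operators containing a triple with `h ^ 2 = 1`
-/

open Module

namespace Pool.Agent.P8H57.SW

open Pool.Agent.P8H30.SW

variable {W : Type} [AddCommGroup W] [Module ℂ W]

/-- `e ⊗ a` -/
noncomputable def Eo (b : Basis (Fin 4) ℂ W) (p q r : ℂ) : Module.End ℂ W :=
  b.constr ℂ ![0, p • b 0 + q • b 2, 0, q • b 0 + r • b 2]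

/-- `f ⊗ a` -/
noncomputable def Fo (b : Basis (Fin 4) ℂ W) (p q r : ℂ) : Module.End ℂ W :=
  b.constr ℂ ![p • b 1 + q • b 3, 0, q • b 1 + r • b 3, 0]

/-- `h ⊗ a` -/
noncomputable def Ho (b : Basis (Fin 4) ℂ W) (p q r : ℂ) : Module.End ℂ W :=
  b.constr ℂ ![p • b 0 + q • b 2, -(p • b 1 + q • b 3), q • b 0 + r • b 2, -(q • b 1 + r • b 3)]

/-- `1 ⊗ j` -/
noncomputable def Jo (b : Basis (Fin 4) ℂ W) (d : ℂ) : Module.End ℂ W :=
  b.constr ℂ ![-(d • b 2), -(d • b 3), d • b 0, d • b 1]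

section

variable (b : Basis (Fin 4) ℂ W) (p q r d : ℂ)

theorem Eo0 : Eo b p q r (b 0) = 0 := by simp [Eo]
theorem Eo1 : Eo b p q r (b 1) = p • b 0 + q • b 2 := by simp [Eo]
theorem Eo2 : Eo b p q r (b 2) = 0 := by simp [Eo]
theorem Eo3 : Eo b p q r (b 3) = q • b 0 + r • b 2 := by simp [Eo]
theorem Fo0 : Fo b p q r (b 0) = p • b 1 + q • b 3 := by simp [Fo]
theorem Fo1 : Fo b p q r (b 1) = 0 := by simp [Fo]
theorem Fo2 : Fo b p q r (b 2) = q • b 1 + r • b 3 := by simp [Fo]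
theorem Fo3 : Fo b p q r (b 3) = 0 := by simp [Fo]
theorem Ho0 : Ho b p q r (b 0) = p • b 0 + q • b 2 := by simp [Ho]
theorem Ho1 : Ho b p q r (b 1) = -(p • b 1 + q • b 3) := by
  simp only [Ho, Basis.constr_basis]; simp
theorem Ho2 : Ho b p q r (b 2) = q • b 0 + r • b 2 := by simp [Ho]
theorem Ho3 : Ho b p q r (b 3) = -(q • b 1 + r • b 3) := by
  simp only [Ho, Basis.constr_basis]; simp
theorem Jo0 : Jo b d (b 0) = -(d • b 2) := by simp [Jo]
theorem Jo1 : Jo b d (b 1) = -(d • b 3) := by simp [Jo]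
theorem Jo2 : Jo b d (b 2) = d • b 0 := by simp [Jo]
theorem Jo3 : Jo b d (b 3) = d • b 1 := by simp [Jo]

end

theorem ext4 (b : Basis (Fin 4) ℂ W) {x y : Module.End ℂ W} (h0 : x (b 0) = y (b 0))
    (h1 : x (b 1) = y (b 1)) (h2 : x (b 2) = y (b 2)) (h3 : x (b 3) = y (b 3)) : x = y :=
  b.ext (by intro i; fin_cases i <;> assumption)

/-- brackets of the four kinds -/
theorem brHX (b : Basis (Fin 4) ℂ W) (a1 a2 a3 b1 b2 b3 c1 c2 c3 d : ℂ) :
    Ho b 1 0 1 * (Ho b a1 a2 a3 + Eo b b1 b2 b3 + Fo b c1 c2 c3 + Jo b d) -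
      (Ho b a1 a2 a3 + Eo b b1 b2 b3 + Fo b c1 c2 c3 + Jo b d) * Ho b 1 0 1 =
      (2 : ℂ) • Eo b b1 b2 b3 - (2 : ℂ) • Fo b c1 c2 c3 := by
  apply ext4 b <;>
    simp only [LinearMap.sub_apply, Module.End.mul_apply, LinearMap.add_apply, map_add, map_neg,
      map_smul, map_zero, LinearMap.smul_apply, Eo0, Eo1, Eo2, Eo3, Fo0, Fo1, Fo2, Fo3, Ho0, Ho1, Ho2,
      Ho3, Jo0, Jo1, Jo2, Jo3] <;> module

theorem brEX (b : Basis (Fin 4) ℂ W) (a1 a2 a3 b1 b2 b3 c1 c2 c3 d : ℂ) :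
    Eo b 1 0 1 * (Ho b a1 a2 a3 + Eo b b1 b2 b3 + Fo b c1 c2 c3 + Jo b d) -
      (Ho b a1 a2 a3 + Eo b b1 b2 b3 + Fo b c1 c2 c3 + Jo b d) * Eo b 1 0 1 =
      -((2 : ℂ) • Eo b a1 a2 a3) + Ho b c1 c2 c3 := by
  apply ext4 b <;>
    simp only [LinearMap.sub_apply, Module.End.mul_apply, LinearMap.add_apply, map_add, map_neg,
      map_smul, map_zero, LinearMap.smul_apply, LinearMap.neg_apply, Eo0, Eo1, Eo2, Eo3, Fo0, Fo1, Fo2,
      Fo3, Ho0, Ho1, Ho2, Ho3, Jo0, Jo1, Jo2, Jo3] <;> module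

theorem brFE (b : Basis (Fin 4) ℂ W) (a1 a2 a3 : ℂ) :
    Fo b 1 0 1 * Eo b a1 a2 a3 - Eo b a1 a2 a3 * Fo b 1 0 1 = -Ho b a1 a2 a3 := by
  apply ext4 b <;>
    simp only [LinearMap.sub_apply, Module.End.mul_apply, LinearMap.add_apply, map_add, map_neg,
      map_smul, map_zero, LinearMap.smul_apply, LinearMap.neg_apply, Eo0, Eo1, Eo2, Eo3, Fo0, Fo1, Fo2,
      Fo3, Ho0, Ho1, Ho2, Ho3, Jo0, Jo1, Jo2, Jo3] <;> module

theorem brFH (b : Basis (Fin 4) ℂ W) (a1 a2 a3 : ℂ) :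
    Fo b 1 0 1 * Ho b a1 a2 a3 - Ho b a1 a2 a3 * Fo b 1 0 1 = (2 : ℂ) • Fo b a1 a2 a3 := by
  apply ext4 b <;>
    simp only [LinearMap.sub_apply, Module.End.mul_apply, LinearMap.add_apply, map_add, map_neg,
      map_smul, map_zero, LinearMap.smul_apply, LinearMap.neg_apply, Eo0, Eo1, Eo2, Eo3, Fo0, Fo1, Fo2,
      Fo3, Ho0, Ho1, Ho2, Ho3, Jo0, Jo1, Jo2, Jo3] <;> module

theorem brEH (b : Basis (Fin 4) ℂ W) (a1 a2 a3 : ℂ) :
    Eo b 1 0 1 * Ho b a1 a2 a3 - Ho b a1 a2 a3 * Eo b 1 0 1 = -((2 : ℂ) • Eo b a1 a2 a3) := by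
  apply ext4 b <;>
    simp only [LinearMap.sub_apply, Module.End.mul_apply, LinearMap.add_apply, map_add, map_neg,
      map_smul, map_zero, LinearMap.smul_apply, LinearMap.neg_apply, Eo0, Eo1, Eo2, Eo3, Fo0, Fo1, Fo2,
      Fo3, Ho0, Ho1, Ho2, Ho3, Jo0, Jo1, Jo2, Jo3] <;> module

theorem brEF (b : Basis (Fin 4) ℂ W) (p q r p' q' r' : ℂ) :
    Eo b p q r * Fo b p' q' r' - Fo b p' q' r' * Eo b p q r =
      Ho b (p * p' + q * q') ((p * q' + q * r' + p' * q + q' * r) / 2) (q * q' + r * r') +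
      Eo b 0 0 0 + Fo b 0 0 0 + Jo b ((p * q' + q * r' - p' * q - q' * r) / 2) := by
  apply ext4 b <;>
    simp only [LinearMap.sub_apply, Module.End.mul_apply, LinearMap.add_apply, map_add, map_neg,
      map_smul, map_zero, LinearMap.smul_apply, LinearMap.neg_apply, Eo0, Eo1, Eo2, Eo3, Fo0, Fo1, Fo2,
      Fo3, Ho0, Ho1, Ho2, Ho3, Jo0, Jo1, Jo2, Jo3] <;> module

theorem brJE (b : Basis (Fin 4) ℂ W) (p q r : ℂ) :
    Jo b 1 * Eo b p q r - Eo b p q r * Jo b 1 = Eo b (2 * q) (r - p) (-(2 * q)) := by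
  apply ext4 b <;>
    simp only [LinearMap.sub_apply, Module.End.mul_apply, LinearMap.add_apply, map_add, map_neg,
      map_smul, map_zero, LinearMap.smul_apply, LinearMap.neg_apply, Eo0, Eo1, Eo2, Eo3, Fo0, Fo1, Fo2,
      Fo3, Ho0, Ho1, Ho2, Ho3, Jo0, Jo1, Jo2, Jo3] <;> module

theorem Eo_lin (b : Basis (Fin 4) ℂ W) (s t p q r p' q' r' : ℂ) :
    s • Eo b p q r + t • Eo b p' q' r' = Eo b (s * p + t * p') (s * q + t * q') (s * r + t * r') := by
  apply ext4 b <;>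
    simp only [LinearMap.add_apply, LinearMap.smul_apply, Eo0, Eo1, Eo2, Eo3] <;> module

theorem Jo_smul (b : Basis (Fin 4) ℂ W) (s d : ℂ) : s • Jo b d = Jo b (s * d) := by
  apply ext4 b <;> simp only [LinearMap.smul_apply, Jo0, Jo1, Jo2, Jo3] <;> module

/-- the decomposition of a skew operator -/
theorem dec (ω : W →ₗ[ℂ] W →ₗ[ℂ] ℂ) (b : Basis (Fin 4) ℂ W) (hω : Sym ω) (hb : Dar ω b)
    (x : Module.End ℂ W) (hx : x ∈ SP ω) : ∃ a1 a2 a3 b1 b2 b3 c1 c2 c3 d : ℂ,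
    x = Ho b a1 a2 a3 + Eo b b1 b2 b3 + Fo b c1 c2 c3 + Jo b d := by
  have hx' : Skew ω x := hx
  have hal : ∀ u v, ω u v = -ω v u := by
    intro u v
    have h1 := hω.alt (u + v)
    have h2 := hω.alt u
    have h3 := hω.alt v
    simp only [map_add, LinearMap.add_apply] at h1
    linear_combination h1 - h2 - h3
  have hex : ∀ i, x (b i) = b.repr (x (b i)) 0 • b 0 + b.repr (x (b i)) 1 • b 1 +
      b.repr (x (b i)) 2 • b 2 + b.repr (x (b i)) 3 • b 3 := by
    intro i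
    conv_lhs => rw [← b.sum_repr (x (b i))]
    rw [Fin.sum_univ_four]
  have w01 := hb.w01
  have w23 := hb.w23
  have w02 := hb.w02
  have w03 := hb.w03
  have w12 := hb.w12
  have w13 := hb.w13
  have w10 := hal (b 1) (b 0)
  have w20 := hal (b 2) (b 0)
  have w30 := hal (b 3) (b 0)
  have w21 := hal (b 2) (b 1)
  have w31 := hal (b 3) (b 1)
  have w32 := hal (b 3) (b 2)
  rw [w01] at w10
  rw [w02] at w20
  rw [w03] at w30
  rw [w12] at w21
  rw [w13] at w31
  rw [w23] at w32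
  have w00 := hω.alt (b 0)
  have w11 := hω.alt (b 1)
  have w22 := hω.alt (b 2)
  have w33 := hω.alt (b 3)
  have s01 := hx' (b 0) (b 1)
  have s02 := hx' (b 0) (b 2)
  have s03 := hx' (b 0) (b 3)
  have s12 := hx' (b 1) (b 2)
  have s13 := hx' (b 1) (b 3)
  have s23 := hx' (b 2) (b 3)
  set X : Fin 4 → Fin 4 → ℂ := fun i j => b.repr (x (b j)) i with hX
  have hex' : ∀ j, x (b j) = X 0 j • b 0 + X 1 j • b 1 + X 2 j • b 2 + X 3 j • b 3 := hex
  rw [hex' 0, hex' 1] at s01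
  rw [hex' 0, hex' 2] at s02
  rw [hex' 0, hex' 3] at s03
  rw [hex' 1, hex' 2] at s12
  rw [hex' 1, hex' 3] at s13
  rw [hex' 2, hex' 3] at s23
  simp only [map_add, map_smul, LinearMap.add_apply, LinearMap.smul_apply, smul_eq_mul, w00, w11, w22,
    w33, w01, w23, w02, w03, w12, w13, w10, w20, w30, w21, w31, w32] at s01 s02 s03 s12 s13 s23
  have e11 : X 1 1 = -X 0 0 := by linear_combination s01
  have e12 : X 1 2 = X 3 0 := by linear_combination s02
  have e13 : X 1 3 = -X 2 0 := by linear_combination s03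
  have e31 : X 3 1 = -X 0 2 := by linear_combination -s12
  have e21 : X 2 1 = X 0 3 := by linear_combination s13
  have e33 : X 3 3 = -X 2 2 := by linear_combination s23
  refine ⟨X 0 0, (X 0 2 + X 2 0) / 2, X 2 2, X 0 1, X 0 3, X 2 3, X 1 0, X 3 0, X 3 2,
    (X 0 2 - X 2 0) / 2, ?_⟩
  apply ext4 b <;> simp only [LinearMap.add_apply, hex', Eo0, Eo1, Eo2, Eo3, Fo0, Fo1, Fo2, Fo3, Ho0,
    Ho1, Ho2, Ho3, Jo0, Jo1, Jo2, Jo3, e11, e12, e13, e31, e21, e33] <;> module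

/-- **SW/C2.** -/
theorem c2 : S_C2 := by
  intro W _ _ ω h e f b L hω hb ht hL hsk hirr hh he hf
  have Hh : h = Ho b 1 0 1 := by
    apply ext4 b <;> simp only [ht.h0, ht.h1, ht.h2, ht.h3, Ho0, Ho1, Ho2, Ho3] <;> module
  have He : e = Eo b 1 0 1 := by
    apply ext4 b <;> simp only [ht.e0, ht.e1, ht.e2, ht.e3, Eo0, Eo1, Eo2, Eo3] <;> module
  have Hf : f = Fo b 1 0 1 := by
    apply ext4 b <;> simp only [ht.f0, ht.f1, ht.f2, ht.f3, Fo0, Fo1, Fo2, Fo3] <;> module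
  rw [Hh] at hh
  rw [He] at he
  rw [Hf] at hf
  have h2 : (2 : ℂ) ≠ 0 := two_ne_zero
  have halve : ∀ y : Module.End ℂ W, (2 : ℂ) • y ∈ L → y ∈ L := by
    intro y hy
    have := L.smul_mem (2⁻¹ : ℂ) hy
    rwa [smul_smul, inv_mul_cancel₀ h2, one_smul] at this
  -- transport between the three kinds
  have EH : ∀ p q r, Eo b p q r ∈ L → Ho b p q r ∈ L := by
    intro p q r hy
    have := hL _ hf _ hy
    rw [brFE] at this
    simpa using L.neg_mem this
  have HF : ∀ p q r, Ho b p q r ∈ L → Fo b p q r ∈ L := by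
    intro p q r hy
    have := hL _ hf _ hy
    rw [brFH] at this
    exact halve _ this
  have HE : ∀ p q r, Ho b p q r ∈ L → Eo b p q r ∈ L := by
    intro p q r hy
    have := hL _ he _ hy
    rw [brEH] at this
    exact halve _ (by simpa using L.neg_mem this)
  have comp : ∀ a1 a2 a3 b1 b2 b3 c1 c2 c3 d,
      Ho b a1 a2 a3 + Eo b b1 b2 b3 + Fo b c1 c2 c3 + Jo b d ∈ L →
      Eo b a1 a2 a3 ∈ L ∧ Eo b b1 b2 b3 ∈ L ∧ Eo b c1 c2 c3 ∈ L ∧ Jo b d ∈ L := by
    intro a1 a2 a3 b1 b2 b3 c1 c2 c3 d hX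
    have k1 := hL _ hh _ hX
    rw [brHX] at k1
    have k2 := hL _ hh _ k1
    have e1 : Ho b 1 0 1 * ((2 : ℂ) • Eo b b1 b2 b3 - (2 : ℂ) • Fo b c1 c2 c3) -
        ((2 : ℂ) • Eo b b1 b2 b3 - (2 : ℂ) • Fo b c1 c2 c3) * Ho b 1 0 1 =
        (2 : ℂ) • ((2 : ℂ) • Eo b b1 b2 b3 + (2 : ℂ) • Fo b c1 c2 c3) := by
      apply ext4 b <;>
        simp only [LinearMap.sub_apply, Module.End.mul_apply, LinearMap.add_apply, map_add, map_neg,
          map_sub, map_smul, map_zero, LinearMap.smul_apply, Eo0, Eo1, Eo2, Eo3, Fo0, Fo1, Fo2, Fo3,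
          Ho0, Ho1, Ho2, Ho3] <;> module
    rw [e1] at k2
    have k3 := halve _ k2
    have kE : Eo b b1 b2 b3 ∈ L := by
      apply halve
      apply halve
      have := L.add_mem k1 k3
      convert this using 1
      module
    have kF : Fo b c1 c2 c3 ∈ L := by
      apply halve
      apply halve
      have := L.sub_mem k3 k1
      convert this using 1
      module
    have k4 := hL _ he _ kF
    have e2 : Eo b 1 0 1 * Fo b c1 c2 c3 - Fo b c1 c2 c3 * Eo b 1 0 1 = Ho b c1 c2 c3 := by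
      apply ext4 b <;>
        simp only [LinearMap.sub_apply, Module.End.mul_apply, LinearMap.add_apply, map_add, map_neg,
          map_sub, map_smul, map_zero, LinearMap.smul_apply, Eo0, Eo1, Eo2, Eo3, Fo0, Fo1, Fo2, Fo3,
          Ho0, Ho1, Ho2, Ho3] <;> module
    rw [e2] at k4
    have k5 := hL _ he _ hX
    rw [brEX] at k5
    have kA : Eo b a1 a2 a3 ∈ L := by
      apply halve
      have := L.sub_mem k4 k5
      convert this using 1
      module
    refine ⟨kA, kE, HE _ _ _ k4, ?_⟩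
    have := L.sub_mem (L.sub_mem (L.sub_mem hX (EH _ _ _ kA)) kE) kF
    convert this using 1
    module
  have lin : ∀ s t p q r p' q' r', Eo b p q r ∈ L → Eo b p' q' r' ∈ L →
      Eo b (s * p + t * p') (s * q + t * q') (s * r + t * r') ∈ L := by
    intro s t p q r p' q' r' h1 h2
    rw [← Eo_lin]
    exact L.add_mem (L.smul_mem _ h1) (L.smul_mem _ h2)
  have tr0 : ∀ p q r, Eo b p q r ∈ L → Eo b ((p - r) / 2) q (-((p - r) / 2)) ∈ L := by
    intro p q r hy
    have := lin 1 (-((p + r) / 2)) _ _ _ _ _ _ hy he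
    convert this using 2 <;> ring
  -- the alternative
  by_cases hA : ∃ p q p' q', Eo b p q (-p) ∈ L ∧ Eo b p' q' (-p') ∈ L ∧ p * q' - p' * q ≠ 0
  · obtain ⟨p, q, p', q', hp, hp', hd⟩ := hA
    have hc := mul_inv_cancel₀ hd
    set c := (p * q' - p' * q)⁻¹ with hcd
    have h10 : Eo b 1 0 (-1) ∈ L := by
      have := lin (q' * c) (-q * c) _ _ _ _ _ _ hp hp'
      convert this using 2
      · linear_combination -hc
      · ring
      · linear_combination hc
    have h01 : Eo b 0 1 0 ∈ L := by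
      have := lin (-p' * c) (p * c) _ _ _ _ _ _ hp hp'
      convert this using 2
      · ring
      · linear_combination -hc
      · ring
    have hall : ∀ p q r, Eo b p q r ∈ L := by
      intro p q r
      have k1 := lin ((p + r) / 2) ((p - r) / 2) _ _ _ _ _ _ he h10
      have k2 := lin 1 q _ _ _ _ _ _ k1 h01
      convert k2 using 2 <;> ring
    have hJ : ∀ d, Jo b d ∈ L := by
      intro d
      have k1 := hL _ h10 _ (HF _ _ _ (EH _ _ _ h01))
      rw [brEF] at k1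
      have k2 := (comp _ _ _ _ _ _ _ _ _ _ k1).2.2.2
      have k3 := L.smul_mem d k2
      rw [Jo_smul] at k3
      convert k3 using 2
      ring
    apply le_antisymm hsk
    intro x hx
    obtain ⟨a1, a2, a3, b1, b2, b3, c1, c2, c3, d, rfl⟩ := dec ω b hω hb x hx
    exact L.add_mem (L.add_mem (L.add_mem (EH _ _ _ (hall _ _ _)) (hall _ _ _))
      (HF _ _ _ (EH _ _ _ (hall _ _ _)))) (hJ d)
  exfalso
  push Not at hA
  -- a common eigenvector
  obtain ⟨m0, m1, hm, hmN, hmJ⟩ : ∃ m0 m1 : ℂ, (m0 ≠ 0 ∨ m1 ≠ 0) ∧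
      (∀ p q, Eo b p q (-p) ∈ L → ∃ s, p * m0 + q * m1 = s * m0 ∧ q * m0 - p * m1 = s * m1) ∧
      (∀ d, Jo b d ∈ L → ∃ s, d * m1 = s * m0 ∧ -(d * m0) = s * m1) := by
    by_cases hJ : Jo b 1 ∈ L
    · -- a square root of `-1`
      obtain ⟨t, ht2, htM⟩ : ∃ t : ℂ, t ^ 2 = -1 ∧ ∀ p q, Eo b p q (-p) ∈ L → q = t * p := by
        by_cases hz : ∃ p q, Eo b p q (-p) ∈ L ∧ (p ≠ 0 ∨ q ≠ 0)
        · obtain ⟨p, q, hpq, hne⟩ := hz
          have k1 := hL _ hJ _ hpq
          rw [brJE] at k1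
          have k2 : Eo b (2 * q) (-2 * p) (-(2 * q)) ∈ L := by
            convert k1 using 2; ring
          have k3 := hA _ _ _ _ hpq k2
          have k4 : p ^ 2 + q ^ 2 = 0 := by linear_combination (-1 / 2 : ℂ) * k3
          have hp : p ≠ 0 := by
            rintro rfl
            have : q ^ 2 = 0 := by linear_combination k4
            have hq := pow_eq_zero_iff (two_ne_zero) |>.mp this
            rcases hne with h | h <;> simp_all
          refine ⟨q / p, ?_, ?_⟩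
          · field_simp
            linear_combination k4
          · intro p' q' hp'
            have := hA _ _ _ _ hpq hp'
            field_simp
            linear_combination this
        · push Not at hz
          refine ⟨Complex.I, Complex.I_sq, ?_⟩
          intro p q hpq
          obtain ⟨h1, h2⟩ := hz p q hpq
          rw [h1, h2]; simp
      refine ⟨1, t, Or.inl one_ne_zero, ?_, ?_⟩
      · intro p q hpq
        have := htM p q hpq
        refine ⟨0, ?_, ?_⟩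
        · rw [this]; linear_combination p * ht2
        · rw [this]; ring
      · intro d _
        refine ⟨d * t, by ring, ?_⟩
        linear_combination -d * ht2
    · have hJ0 : ∀ d, Jo b d ∈ L → d = 0 := by
        intro d hd
        by_contra hne
        apply hJ
        have := L.smul_mem d⁻¹ hd
        rwa [Jo_smul, inv_mul_cancel₀ hne] at this
      by_cases hz : ∃ p q, Eo b p q (-p) ∈ L ∧ q ≠ 0
      · obtain ⟨p, q, hpq, hq⟩ := hz
        obtain ⟨s, hs⟩ := IsAlgClosed.exists_pow_nat_eq (p ^ 2 + q ^ 2) (n := 2) (by norm_num)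
        refine ⟨q, s - p, Or.inl hq, ?_, ?_⟩
        · intro p' q' hp'
          have k := hA _ _ _ _ hpq hp'
          refine ⟨q' / q * s, ?_, ?_⟩
          · field_simp
            linear_combination -k
          · field_simp
            linear_combination (s - p) * k - q' * hs
        · intro d hd
          refine ⟨0, ?_, ?_⟩ <;> rw [hJ0 d hd] <;> ring
      · push Not at hz
        refine ⟨1, 0, Or.inl one_ne_zero, ?_, ?_⟩
        · intro p q hpq
          refine ⟨p, by ring, ?_⟩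
          rw [hz p q hpq]; ring
        · intro d hd
          refine ⟨0, ?_, ?_⟩ <;> rw [hJ0 d hd] <;> ring
  -- the stable plane
  have hmN' : ∀ p q r, Eo b p q r ∈ L → ∃ s, p * m0 + q * m1 = s * m0 ∧ q * m0 + r * m1 = s * m1 := by
    intro p q r hy
    obtain ⟨s, h1, h2⟩ := hmN _ _ (tr0 p q r hy)
    exact ⟨s + (p + r) / 2, by linear_combination h1, by linear_combination h2⟩
  set v : W := m0 • b 0 + m1 • b 2 with hv
  set v' : W := m0 • b 1 + m1 • b 3 with hv'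
  have hst : ∀ x ∈ L, ∀ u ∈ Submodule.span ℂ {v, v'}, x u ∈ Submodule.span ℂ {v, v'} := by
    intro x hx u hu
    obtain ⟨a1, a2, a3, b1, b2, b3, c1, c2, c3, d, rfl⟩ := dec ω b hω hb x (hsk hx)
    obtain ⟨kA, kE, kF, kJ⟩ := comp _ _ _ _ _ _ _ _ _ _ hx
    obtain ⟨sa, ha1, ha2⟩ := hmN' _ _ _ kA
    obtain ⟨sb, hb1, hb2⟩ := hmN' _ _ _ kE
    obtain ⟨sc, hc1, hc2⟩ := hmN' _ _ _ kF
    obtain ⟨sd, hd1, hd2⟩ := hmJ _ kJ
    rw [Submodule.mem_span_pair] at hu ⊢
    obtain ⟨α, β, rfl⟩ := hu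
    refine ⟨α * (sa + sd) + β * sb, α * sc + β * (sd - sa), ?_⟩
    have e1 : (Ho b a1 a2 a3 + Eo b b1 b2 b3 + Fo b c1 c2 c3 + Jo b d) v =
        (sa + sd) • v + sc • v' := by
      simp only [hv, hv', LinearMap.add_apply, map_add, map_smul, Eo0, Eo2, Fo0, Fo2, Ho0, Ho2, Jo0, Jo2]
      have : (sa + sd) • (m0 • b 0 + m1 • b 2) + sc • (m0 • b 1 + m1 • b 3) =
          (sa * m0 + sd * m0) • b 0 + (sa * m1 + sd * m1) • b 2 + (sc * m0) • b 1 +
          (sc * m1) • b 3 := by module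
      rw [this, ← ha1, ← ha2, ← hc1, ← hc2, ← hd1, ← hd2]
      module
    have e2 : (Ho b a1 a2 a3 + Eo b b1 b2 b3 + Fo b c1 c2 c3 + Jo b d) v' =
        sb • v + (sd - sa) • v' := by
      simp only [hv, hv', LinearMap.add_apply, map_add, map_smul, Eo1, Eo3, Fo1, Fo3, Ho1, Ho3, Jo1, Jo3]
      have : sb • (m0 • b 0 + m1 • b 2) + (sd - sa) • (m0 • b 1 + m1 • b 3) =
          (sb * m0) • b 0 + (sb * m1) • b 2 + (sd * m0 - sa * m0) • b 1 +
          (sd * m1 - sa * m1) • b 3 := by module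
      rw [this, ← ha1, ← ha2, ← hb1, ← hb2, ← hd1, ← hd2]
      module
    rw [map_add, map_smul, map_smul, e1, e2]
    module
  have c0 : ∀ α β : ℂ, b.repr (α • v + β • v') 0 = α * m0 := by
    intro α β; simp [hv, hv']
  have c2 : ∀ α β : ℂ, b.repr (α • v + β • v') 2 = α * m1 := by
    intro α β; simp [hv, hv']
  rcases hirr _ hst with hU | hU
  · have hv0 : v = 0 := by
      have : v ∈ Submodule.span ℂ {v, v'} := Submodule.subset_span (by simp)
      rw [hU] at this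
      simpa using this
    have k0 := c0 1 0
    have k2 := c2 1 0
    rw [hv0] at k0 k2
    simp at k0 k2
    rcases hm with h | h
    · exact h k0.symm
    · exact h k2.symm
  · have k0 : b 0 ∈ Submodule.span ℂ {v, v'} := by rw [hU]; trivial
    have k2 : b 2 ∈ Submodule.span ℂ {v, v'} := by rw [hU]; trivial
    rw [Submodule.mem_span_pair] at k0 k2
    obtain ⟨α, β, k0⟩ := k0
    obtain ⟨α', β', k2⟩ := k2
    have l1 := c0 α β
    have l2 := c2 α β
    have l3 := c0 α' β'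
    have l4 := c2 α' β'
    rw [k0] at l1 l2
    rw [k2] at l3 l4
    simp at l1 l2 l3 l4
    have hα : α ≠ 0 := by rintro rfl; simp at l1
    have hα' : α' ≠ 0 := by rintro rfl; simp at l4
    have hm1 : m1 = 0 := by
      rcases l2 with h | h
      · exact absurd h hα
      · exact h
    rw [hm1] at l4
    simp at l4

end Pool.Agent.P8H57.SW
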