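import Mathlib
import Pool.Agent.P8H30.SW.Stm

set_option autoImplicit false
set_option linter.unusedSimpArgs false
set_option linter.unusedSectionVars false

/-!
# SW/LOC: invariant alternating forms of a principal triple
-/

open Module Function

namespace Pool.Agent.P8H57.SW.Loc

open Pool.Agent.P8H30.SW Pool.Agent.N208.LC

section

variable {V ι ι' : Type} [AddCommGroup V] [Module ℂ V] [Fintype ι] [DecidableEq ι]
  [Fintype ι'] [DecidableEq ι']

/-- the action of an operator, as a multilinear form -/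
noncomputable def Dx (x : Module.End ℂ V) (φ : MultilinearMap ℂ (fun _ : ι' => V) ℂ) :
    MultilinearMap ℂ (fun _ : ι' => V) ℂ :=
  ∑ k, φ.compLinearMap (fun i => if i = k then x else LinearMap.id)

theorem Dx_apply (x : Module.End ℂ V) (φ : MultilinearMap ℂ (fun _ : ι' => V) ℂ) (v : ι' → V) :
    Dx x φ v = ∑ k, φ (update v k (x (v k))) := by
  simp only [Dx, sum_apply, MultilinearMap.compLinearMap_apply]
  refine Finset.sum_congr rfl fun k _ => ?_
  congr 1
  funext i
  by_cases h : i = k
  · subst h; simp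
  · simp [h]

theorem kil_of_basis (b : Basis ι ℂ V) (x : Module.End ℂ V)
    (φ : MultilinearMap ℂ (fun _ : ι' => V) ℂ)
    (H : ∀ I : ι' → ι, ∑ k, φ (update (fun i => b (I i)) k (x (b (I k)))) = 0) : Kil x φ := by
  have h0 : Dx x φ = 0 := by
    apply Basis.ext_multilinear (fun _ => b)
    intro I
    rw [Dx_apply, H I]
    rfl
  intro v
  rw [← Dx_apply, h0]
  rfl

theorem kil_eq (x : Module.End ℂ V) (φ : V [⋀^ι']→ₗ[ℂ] ℂ) (v : ι' → V) (p q : ι') (hpq : p ≠ q)
    (hv : v p = v q) : ∑ k, φ (update v k (x (v k))) = 0 := by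
  have h1 : ∀ k, k ≠ p → k ≠ q → φ (update v k (x (v k))) = 0 := by
    intro k hp hq
    apply φ.map_eq_zero_of_eq _ _ hpq
    rw [update_of_ne (Ne.symm hp), update_of_ne (Ne.symm hq), hv]
  rw [← Finset.add_sum_erase _ _ (Finset.mem_univ p),
    ← Finset.add_sum_erase _ _ (Finset.mem_erase.2 ⟨hpq.symm, Finset.mem_univ q⟩)]
  rw [Finset.sum_eq_zero (fun k hk => ?_), add_zero]
  · have h2 : update v q (x (v q)) = (update v p (x (v p))) ∘ Equiv.swap p q := by
      funext i
      by_cases hi : i = p
      · subst hi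
        simp [hpq, hpq.symm, hv]
      · by_cases hi' : i = q
        · subst hi'
          simp [hv]
        · simp [hi, hi', Equiv.swap_apply_of_ne_of_ne]
    rw [h2, φ.map_swap _ hpq]
    ring
  · simp only [Finset.mem_erase] at hk
    exact h1 k hk.2.1 hk.1

theorem upd (b : Basis ι ℂ V) (I : ι' → ι) (k : ι') (i' : ι) :
    update (fun i => b (I i)) k (b i') = fun i => b (update I k i' i) := by
  funext i
  by_cases h : i = k
  · subst h; simp
  · simp [h]

/-- one half of the situation -/
structure Side (b : Basis ι ℂ V) (w : ι → ℤ) (j : Fin 4 → ι) (h g : Module.End ℂ V) (c : Fin 3 → ℂ)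
    (φ : V [⋀^ι']→ₗ[ℂ] ℂ) : Prop where
  inj : Injective j
  wj : ∀ k : Fin 4, w (j k) = 3 - 2 * (k : ℕ)
  hb : ∀ i, h (b i) = (w i : ℂ) • b i
  c0 : ∀ a, c a ≠ 0
  gj : ∀ a : Fin 3, g (b (j a.castSucc)) = c a • b (j a.succ)
  gl : g (b (j 3)) = 0
  out : ∀ i, i ∉ Set.range j → w i = 0 ∨ w i = 1 ∨ w i = -1
  uni : ∀ i i', i ∉ Set.range j → i' ∉ Set.range j → w i = w i' → w i ≠ 0 → i = i'
  gz : ∀ i, i ∉ Set.range j → w i ≠ 1 → g (b i) = 0
  gp : ∀ i, i ∉ Set.range j → w i = 1 →
    g (b i) ∈ Submodule.span ℂ (b '' {i' | i' ∉ Set.range j ∧ w i' = -1})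
  kh : Kil h φ.toMultilinearMap
  kg : Kil g φ.toMultilinearMap

variable {b : Basis ι ℂ V} {w : ι → ℤ} {j : Fin 4 → ι} {h g : Module.End ℂ V} {c : Fin 3 → ℂ}
  {φ : V [⋀^ι']→ₗ[ℂ] ℂ}

theorem Side.wt (S : Side b w j h g c φ) (I : ι' → ι) (hI : φ (fun k => b (I k)) ≠ 0) :
    ∑ k, w (I k) = 0 := by
  have h1 := S.kh (fun k => b (I k))
  simp only [S.hb] at h1
  have h2 : ∀ k, φ.toMultilinearMap (update (fun k => b (I k)) k ((w (I k) : ℂ) • b (I k))) =
      (w (I k) : ℂ) * φ (fun k => b (I k)) := by
    intro k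
    rw [MultilinearMap.map_update_smul, smul_eq_mul]
    congr 1
    have : update (fun k => b (I k)) k (b (I k)) = fun k => b (I k) :=
      update_eq_self k (fun k => b (I k))
    rw [this]
    rfl
  simp only [h2] at h1
  rw [← Finset.sum_mul] at h1
  have h3 := (mul_eq_zero.1 h1).resolve_right hI
  exact_mod_cast h3

theorem inj_of (I : ι' → ι) (hI : φ (fun k => b (I k)) ≠ 0) : Injective I := by
  intro p q hpq
  by_contra hne
  exact hI (φ.map_eq_zero_of_eq _ (by simp [hpq]) hne)

theorem Side.tz (S : Side b w j h g c φ) (I : ι' → ι) (k : ι')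
    (hk : (I k ∉ Set.range j ∧ w (I k) ≠ 1) ∨ (I k = j 3) ∨
      (∃ a : Fin 3, I k = j a.castSucc ∧ ∃ k', k' ≠ k ∧ I k' = j a.succ) ∨
      (I k ∉ Set.range j ∧ w (I k) = 1 ∧ ∃ k', k' ≠ k ∧ I k' ∉ Set.range j ∧ w (I k') = -1)) :
    φ (update (fun i => b (I i)) k (g (b (I k)))) = 0 := by
  have hz : φ (update (fun i => b (I i)) k 0) = 0 := φ.map_update_zero _ _
  rcases hk with ⟨h1, h2⟩ | h1 | ⟨a, h1, k', hk', h2⟩ | ⟨h1, h2, k', hk', h3, h4⟩
  · rw [S.gz _ h1 h2, hz]
  · rw [h1, S.gl, hz]
  · rw [h1, S.gj, φ.map_update_smul]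
    rw [φ.map_eq_zero_of_eq _ (i := k) (j := k') _ hk'.symm, smul_zero]
    rw [update_self, update_of_ne hk', h2]
  · have h5 := S.gp _ h1 h2
    have h6 : Submodule.span ℂ (b '' {i' | i' ∉ Set.range j ∧ w i' = -1}) ≤
        LinearMap.ker (φ.toMultilinearMap.toLinearMap (fun i => b (I i)) k) := by
      rw [Submodule.span_le]
      rintro _ ⟨i', ⟨hi', hw⟩, rfl⟩
      have : i' = I k' := S.uni _ _ hi' h3 (by rw [hw, h4]) (by rw [hw]; norm_num)
      subst this
      simp only [SetLike.mem_coe, LinearMap.mem_ker, MultilinearMap.toLinearMap_apply]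
      apply φ.map_eq_zero_of_eq _ (i := k) (j := k') _ hk'.symm
      rw [update_self, update_of_ne hk']
    exact h6 h5

theorem Side.step (S : Side b w j h g c φ) (I : ι' → ι) (p : ι') (a : Fin 3) (hp : I p = j a.succ)
    (hk : ∀ k, k ≠ p → φ (update (fun i => b (update I p (j a.castSucc) i)) k
      (g (b (update I p (j a.castSucc) k)))) = 0) : φ (fun k => b (I k)) = 0 := by
  have h1 : ∑ k, φ (update (fun i => b (update I p (j a.castSucc) i)) k
      (g (b (update I p (j a.castSucc) k)))) = 0 := S.kg (fun i => b (update I p (j a.castSucc) i))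
  rw [Finset.sum_eq_single p (fun k _ hkp => hk k hkp) (fun hp => absurd (Finset.mem_univ p) hp)] at h1
  simp only [update_self] at h1
  rw [S.gj, φ.map_update_smul] at h1
  have h2 := (smul_eq_zero.1 h1).resolve_left (S.c0 a)
  rw [upd] at h2
  have h3 : update (update I p (j a.castSucc)) p (j a.succ) = I := by
    rw [update_idem, ← hp, update_eq_self]
  rw [h3] at h2
  exact h2

/-- one half of the odd case -/
theorem Side.half (S : Side b w j h g c φ) (I : ι' → ι) (hI : Injective I)
    (hA : (∀ a, (∃ k, I k = j a) ↔ a = 1) ∨ (∀ a, (∃ k, I k = j a) ↔ a ≠ 2))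
    (hw : ∀ k, I k ∉ Set.range j → w (I k) ≠ 1) : φ (fun k => b (I k)) = 0 := by
  rcases hA with hA | hA
  · obtain ⟨p, hp⟩ := (hA 1).2 rfl
    refine S.step I p 0 hp fun k hk => S.tz _ _ (Or.inl ?_)
    rw [update_of_ne hk]
    have : I k ∉ Set.range j := by
      rintro ⟨a, ha⟩
      have := (hA a).1 ⟨k, ha.symm⟩
      subst this
      exact hk (hI (ha.symm.trans hp.symm))
    exact ⟨this, hw k this⟩
  · obtain ⟨p, hp⟩ := (hA 3).2 (by decide)
    obtain ⟨r, hr⟩ := (hA 1).2 (by decide)
    have hrp : r ≠ p := by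
      rintro rfl
      have := S.inj (hr.symm.trans hp)
      exact absurd this (by decide)
    refine S.step I p 2 hp fun k hk => S.tz _ _ ?_
    by_cases hkj : I k ∈ Set.range j
    · obtain ⟨a, ha⟩ := hkj
      have ha2 := (hA a).1 ⟨k, ha.symm⟩
      right; right; left
      have ha3 : a ≠ 3 := by
        rintro rfl
        exact hk (hI (ha.symm.trans hp.symm))
      have hdec : ∀ a : Fin 4, a ≠ 2 → a ≠ 3 → a = 0 ∨ a = 1 := by decide
      have ha4 : a = 0 ∨ a = 1 := hdec a ha2 ha3
      rcases ha4 with rfl | rfl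
      · refine ⟨0, ?_, r, ?_, ?_⟩
        · rw [update_of_ne hk]; exact ha.symm
        · rintro rfl
          have := S.inj (ha.trans hr)
          exact absurd this (by decide)
        · rw [update_of_ne hrp]; exact hr
      · refine ⟨1, ?_, p, hk.symm, ?_⟩
        · rw [update_of_ne hk]; exact ha.symm
        · rw [update_self]; rfl
    · left
      rw [update_of_ne hk]
      exact ⟨hkj, hw k hkj⟩

open Classical in
/-- the count of weights -/
theorem Side.cnt (S : Side b w j h g c φ) (I : ι' → ι) (hI : Injective I) :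
    ∃ A : Finset (Fin 4), (∀ a, a ∈ A ↔ ∃ k, I k = j a) ∧
      A.card = (Finset.univ.filter fun k => I k ∈ Set.range j).card ∧
      ∑ k, w (I k) = ∑ a ∈ A, (3 - 2 * ((a : ℕ) : ℤ)) +
        ((Finset.univ.filter fun k => I k ∉ Set.range j ∧ w (I k) = 1).card : ℤ) -
        ((Finset.univ.filter fun k => I k ∉ Set.range j ∧ w (I k) = -1).card : ℤ) := by
  set A : Finset (Fin 4) := Finset.univ.filter fun a => ∃ k, I k = j a with hA
  set T := Finset.univ.filter fun k => I k ∈ Set.range j with hT
  have h1 : T.image I = A.image j := by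
    ext i
    simp only [hT, hA, Finset.mem_image, Finset.mem_filter, Finset.mem_univ, true_and, Set.mem_range]
    constructor
    · rintro ⟨k, ⟨a, ha⟩, rfl⟩
      exact ⟨a, ⟨k, ha.symm⟩, ha⟩
    · rintro ⟨a, ⟨k, hk⟩, rfl⟩
      exact ⟨k, ⟨a, hk.symm⟩, hk⟩
  refine ⟨A, fun a => by simp [hA], ?_, ?_⟩
  · rw [← Finset.card_image_of_injective A S.inj, ← h1, Finset.card_image_of_injective _ hI]
  · rw [← Finset.sum_filter_add_sum_filter_not Finset.univ (fun k => I k ∈ Set.range j)]
    have h2 : ∑ k ∈ T, w (I k) = ∑ a ∈ A, (3 - 2 * ((a : ℕ) : ℤ)) := by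
      rw [← Finset.sum_image (f := w) (g := I) (s := T) (fun x _ y _ hxy => hI hxy), h1,
        Finset.sum_image (fun x _ y _ hxy => S.inj hxy)]
      exact Finset.sum_congr rfl fun a _ => S.wj a
    rw [h2, add_sub_assoc]
    congr 1
    rw [Finset.sum_filter, Finset.card_filter, Finset.card_filter]
    push_cast
    rw [← Finset.sum_sub_distrib]
    refine Finset.sum_congr rfl fun k _ => ?_
    by_cases hk : I k ∈ Set.range j
    · simp [hk]
    · rcases S.out _ hk with h | h | h <;> simp [hk, h]

open Classical in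
theorem Side.le1 (S : Side b w j h g c φ) (I : ι' → ι) (hI : Injective I) (n : ℤ) (hn : n ≠ 0) :
    (Finset.univ.filter fun k => I k ∉ Set.range j ∧ w (I k) = n).card ≤ 1 := by
  rw [Finset.card_le_one]
  intro k hk l hl
  simp only [Finset.mem_filter, Finset.mem_univ, true_and] at hk hl
  exact hI (S.uni _ _ hk.1 hl.1 (by rw [hk.2, hl.2]) (by rw [hk.2]; exact hn))

theorem decOdd : ∀ (A : Finset (Fin 4)) (n m : Fin 2), Odd A.card →
    ∑ a ∈ A, (3 - 2 * ((a : ℕ) : ℤ)) + ((n : ℕ) : ℤ) - ((m : ℕ) : ℤ) = 0 →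
    ((A = {1} ∨ A = {0, 1, 3}) ∧ n = 0) ∨ ((A = {2} ∨ A = {0, 2, 3}) ∧ m = 0) := by
  decide

open Classical in
/-- the odd case -/
theorem oddZero {g' : Module.End ℂ V} {c' : Fin 3 → ℂ} (S : Side b w j h g c φ)
    (S' : Side b (fun i => -w i) (fun a => j a.rev) (-h) g' c' φ) (I : ι' → ι)
    (hodd : Odd (Finset.univ.filter fun k => I k ∈ Set.range j).card) :
    φ (fun k => b (I k)) = 0 := by
  by_contra hne
  have hI := inj_of I hne
  have hwt := S.wt I hne
  obtain ⟨A, hA, hcard, hsum⟩ := S.cnt I hI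
  rw [hwt] at hsum
  have h1 := S.le1 I hI 1 one_ne_zero
  have h2 := S.le1 I hI (-1) (by norm_num)
  have h3 := decOdd A ⟨_, Nat.lt_succ_of_le h1⟩ ⟨_, Nat.lt_succ_of_le h2⟩ (hcard ▸ hodd) hsum.symm
  rcases h3 with ⟨hA', h0⟩ | ⟨hA', h0⟩
  · apply hne
    apply S.half I hI
    · rcases hA' with hA' | hA'
      · left
        intro a
        rw [← hA, hA']
        simp
      · right
        intro a
        rw [← hA, hA']
        revert a; decide
    · intro k hk hk'
      have h4 : (Finset.univ.filter fun k => I k ∉ Set.range j ∧ w (I k) = 1).card = 0 := by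
        simpa using congrArg Fin.val h0
      rw [Finset.card_eq_zero, Finset.filter_eq_empty_iff] at h4
      exact h4 (Finset.mem_univ k) ⟨hk, hk'⟩
  · apply hne
    have hr : Set.range (fun a : Fin 4 => j a.rev) = Set.range j := by
      ext i
      constructor
      · rintro ⟨a, rfl⟩; exact ⟨_, rfl⟩
      · rintro ⟨a, rfl⟩; exact ⟨a.rev, by simp⟩
    apply S'.half I hI
    · rcases hA' with hA' | hA'
      · left
        intro a
        have h5 := hA a.rev
        simp only [← h5, hA']
        clear h5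
        revert a; decide
      · right
        intro a
        have h5 := hA a.rev
        simp only [← h5, hA']
        clear h5
        revert a; decide
    · intro k hk hk'
      rw [hr] at hk
      have h4 : (Finset.univ.filter fun k => I k ∉ Set.range j ∧ w (I k) = -1).card = 0 := by
        simpa using congrArg Fin.val h0
      rw [Finset.card_eq_zero, Finset.filter_eq_empty_iff] at h4
      exact h4 (Finset.mem_univ k) ⟨hk, by linarith⟩

theorem decEven : ∀ (A : Finset (Fin 4)) (n m : Fin 2), A.card = 2 →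
    ∑ a ∈ A, (3 - 2 * ((a : ℕ) : ℤ)) + ((n : ℕ) : ℤ) - ((m : ℕ) : ℤ) = 0 →
    n = m ∧ (A = {0, 3} ∨ A = {1, 2}) := by
  decide

theorem Side.ow (S : Side b w j h g c φ) (ω : V →ₗ[ℂ] V →ₗ[ℂ] ℂ) (hωh : Skew ω h) :
    ∀ c d : Fin 4, (c : ℕ) + (d : ℕ) ≠ 3 → ω (b (j c)) (b (j d)) = 0 := by
  intro c d hcd
  have h1 := hωh (b (j c)) (b (j d))
  rw [S.hb, S.hb, S.wj, S.wj] at h1
  simp only [map_smul, LinearMap.smul_apply, smul_eq_mul] at h1
  push_cast at h1
  have h2 : (6 - 2 * ((c : ℕ) + (d : ℕ) : ℂ)) * ω (b (j c)) (b (j d)) = 0 := by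
    linear_combination h1
  refine (mul_eq_zero.1 h2).resolve_left fun h3 => hcd ?_
  have h4 : (((c : ℕ) + (d : ℕ) : ℕ) : ℂ) = (3 : ℕ) := by
    push_cast
    linear_combination (-1 / 2 : ℂ) * h3
  exact_mod_cast h4

theorem Side.o12 (S : Side b w j h g c φ) (hc : c 0 = c 2) (ω : V →ₗ[ℂ] V →ₗ[ℂ] ℂ)
    (hωg : Skew ω g) : ω (b (j 1)) (b (j 2)) = -ω (b (j 0)) (b (j 3)) := by
  have h1 := hωg (b (j 0)) (b (j 2))
  have g0 : g (b (j 0)) = c 0 • b (j 1) := S.gj 0
  have g2 : g (b (j 2)) = c 2 • b (j 3) := S.gj 2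
  rw [g0, g2, hc] at h1
  simp only [map_smul, LinearMap.smul_apply, smul_eq_mul] at h1
  have h2 : c 2 * (ω (b (j 1)) (b (j 2)) + ω (b (j 0)) (b (j 3))) = 0 := by
    linear_combination h1
  have h3 := (mul_eq_zero.1 h2).resolve_left (S.c0 2)
  linear_combination h3

open Classical in
/-- the case of two variables -/
theorem two (S : Side b w j h g c φ) (hc : c 0 = c 2) (ω : V →ₗ[ℂ] V →ₗ[ℂ] ℂ) (hal : ∀ v, ω v v = 0)
    (hωh : Skew ω h) (hωg : Skew ω g) (hω : ω (b (j 0)) (b (j 3)) ≠ 0) (I : ι' → ι) (p q : ι')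
    (hpq : p ≠ q) (hT : (Finset.univ.filter fun k => I k ∈ Set.range j) = {p, q}) :
    ∃ C : ℂ, ∀ c d, φ (fun k => b (update (update I p (j c)) q (j d) k)) =
      C * ω (b (j c)) (b (j d)) := by
  set J : Fin 4 → Fin 4 → ι' → ι := fun c d => update (update I p (j c)) q (j d) with hJ
  have hTk : ∀ k, I k ∈ Set.range j ↔ k = p ∨ k = q := by
    intro k
    have : k ∈ (Finset.univ.filter fun k => I k ∈ Set.range j) ↔ k ∈ ({p, q} : Finset ι') := by rw [hT]
    simpa using this
  have hJp : ∀ c d, J c d p = j c := fun c d => by simp [hJ, hpq]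
  have hJq : ∀ c d, J c d q = j d := fun c d => by simp [hJ]
  have hJk : ∀ c d k, k ≠ p → k ≠ q → J c d k = I k := fun c d k h1 h2 => by simp [hJ, h1, h2]
  have hJr : ∀ c d k, J c d k ∈ Set.range j ↔ I k ∈ Set.range j := by
    intro c d k
    by_cases h1 : k = p
    · subst h1
      rw [hJp, hTk]
      simp
    · by_cases h2 : k = q
      · subst h2
        rw [hJq, hTk]
        simp
      · rw [hJk c d k h1 h2]
  have hJn : ∀ c d (n : ℤ), (Finset.univ.filter fun k => J c d k ∉ Set.range j ∧ w (J c d k) = n) =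
      Finset.univ.filter fun k => I k ∉ Set.range j ∧ w (I k) = n := by
    intro c d n
    ext k
    simp only [Finset.mem_filter, Finset.mem_univ, true_and, hJr]
    constructor
    · rintro ⟨h1, h2⟩
      rw [hTk, not_or] at h1
      rw [hJk c d k h1.1 h1.2] at h2
      exact ⟨by rw [hTk, not_or]; exact h1, h2⟩
    · rintro ⟨h1, h2⟩
      refine ⟨h1, ?_⟩
      rw [hTk, not_or] at h1
      rw [hJk c d k h1.1 h1.2]
      exact h2
  have hJT : ∀ c d, (Finset.univ.filter fun k => J c d k ∈ Set.range j) = {p, q} := by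
    intro c d
    rw [← hT]
    ext k
    simp [hJr]
  -- nonzero values
  have hnz : ∀ c d, φ (fun k => b (J c d k)) ≠ 0 →
      (Finset.univ.filter fun k => I k ∉ Set.range j ∧ w (I k) = 1).card =
      (Finset.univ.filter fun k => I k ∉ Set.range j ∧ w (I k) = -1).card ∧
      (c : ℕ) + (d : ℕ) = 3 := by
    intro c d hne
    have hI := inj_of _ hne
    have hwt := S.wt _ hne
    obtain ⟨A, hA, hcard, hsum⟩ := S.cnt _ hI
    rw [hwt, hJn, hJn] at hsum
    rw [hJT, Finset.card_pair hpq] at hcard
    have h1 := S.le1 _ hI 1 one_ne_zero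
    have h2 := S.le1 _ hI (-1) (by norm_num)
    rw [hJn] at h1 h2
    have h3 := decEven A ⟨_, Nat.lt_succ_of_le h1⟩ ⟨_, Nat.lt_succ_of_le h2⟩ hcard hsum.symm
    refine ⟨congrArg Fin.val h3.1, ?_⟩
    have hcA : c ∈ A := (hA c).2 ⟨p, hJp c d⟩
    have hdA : d ∈ A := (hA d).2 ⟨q, hJq c d⟩
    have hcd : c ≠ d := by
      rintro rfl
      exact hpq (hI ((hJp c c).trans (hJq c c).symm))
    rcases h3.2 with h | h <;> rw [h] at hcA hdA <;>
      simp only [Finset.mem_insert, Finset.mem_singleton] at hcA hdA <;>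
      rcases hcA with rfl | rfl <;> rcases hdA with rfl | rfl <;> simp at hcd ⊢
  by_cases hnm : (Finset.univ.filter fun k => I k ∉ Set.range j ∧ w (I k) = 1).card =
      (Finset.univ.filter fun k => I k ∉ Set.range j ∧ w (I k) = -1).card
  swap
  · refine ⟨0, fun c d => ?_⟩
    rw [zero_mul]
    by_contra hne
    exact hnm (hnz c d hne).1
  -- the relation
  have hrel : φ (fun k => b (J 1 2 k)) + φ (fun k => b (J 0 3 k)) = 0 := by
    have h1 : ∑ k, φ (update (fun i => b (J 0 2 i)) k (g (b (J 0 2 k)))) = 0 :=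
      S.kg (fun i => b (J 0 2 i))
    rw [← Finset.add_sum_erase _ _ (Finset.mem_univ p),
      ← Finset.add_sum_erase _ _ (Finset.mem_erase.2 ⟨hpq.symm, Finset.mem_univ q⟩)] at h1
    rw [Finset.sum_eq_zero (fun k hk => ?_), add_zero] at h1
    · rw [hJp, hJq] at h1
      have g0 : g (b (j 0)) = c 0 • b (j 1) := S.gj 0
      have g2 : g (b (j 2)) = c 2 • b (j 3) := S.gj 2
      rw [g0, g2, φ.map_update_smul, φ.map_update_smul, upd, upd, hc, ← smul_add] at h1
      have h2 := (smul_eq_zero.1 h1).resolve_left (S.c0 2)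
      have e1 : update (J 0 2) p (j 1) = J 1 2 := by
        simp only [hJ]
        rw [update_comm hpq.symm, update_idem]
      have e2 : update (J 0 2) q (j 3) = J 0 3 := by
        simp only [hJ]
        rw [update_idem]
      rw [e1, e2] at h2
      exact h2
    · simp only [Finset.mem_erase] at hk
      apply S.tz
      have hk' : I k ∉ Set.range j := by
        rw [hTk, not_or]
        exact ⟨hk.2.1, hk.1⟩
      rw [hJk _ _ k hk.2.1 hk.1]
      by_cases hw : w (I k) = 1
      · right; right; right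
        refine ⟨hk', hw, ?_⟩
        have h3 : 0 < (Finset.univ.filter fun k => I k ∉ Set.range j ∧ w (I k) = 1).card :=
          Finset.card_pos.2 ⟨k, Finset.mem_filter.2 ⟨Finset.mem_univ k, hk', hw⟩⟩
        rw [hnm, Finset.card_pos] at h3
        obtain ⟨k', hk''⟩ := h3
        simp only [Finset.mem_filter, Finset.mem_univ, true_and] at hk''
        have h4 := hk''.1
        rw [hTk, not_or] at h4
        refine ⟨k', ?_, ?_, ?_⟩
        · rintro rfl
          rw [hw] at hk''
          exact absurd hk''.2 (by norm_num)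
        · rw [hJr]; exact hk''.1
        · rw [hJk _ _ k' h4.1 h4.2]; exact hk''.2
      · left
        exact ⟨hk', hw⟩
  have hsw : ∀ c d, φ (fun k => b (J c d k)) = -φ (fun k => b (J d c k)) := by
    intro c d
    rw [← φ.map_swap _ hpq]
    congr 1
    funext k
    by_cases h1 : k = p
    · subst h1
      simp [hJp, hJq]
    · by_cases h2 : k = q
      · subst h2
        simp [hJp, hJq]
      · simp only [comp_apply, Equiv.swap_apply_of_ne_of_ne h1 h2, hJk _ _ k h1 h2]
  have hωsw : ∀ u v, ω u v = -ω v u := by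
    intro u v
    have h1 := hal (u + v)
    have h2 := hal u
    have h3 := hal v
    simp only [map_add, LinearMap.add_apply] at h1
    linear_combination h1 - h2 - h3
  have hωw := S.ow ω hωh
  have hω12 := S.o12 hc ω hωg
  refine ⟨φ (fun k => b (J 0 3 k)) / ω (b (j 0)) (b (j 3)), fun c d => ?_⟩
  by_cases hcd : (c : ℕ) + (d : ℕ) = 3
  · have h12 : φ (fun k => b (J 1 2 k)) = -φ (fun k => b (J 0 3 k)) := by linear_combination hrel
    have hcases : (c = 0 ∧ d = 3) ∨ (c = 3 ∧ d = 0) ∨ (c = 1 ∧ d = 2) ∨ (c = 2 ∧ d = 1) := by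
      revert hcd; revert c d; decide
    rcases hcases with ⟨rfl, rfl⟩ | ⟨rfl, rfl⟩ | ⟨rfl, rfl⟩ | ⟨rfl, rfl⟩
    · change φ (fun k => b (J 0 3 k)) = _
      field_simp
    · change φ (fun k => b (J 3 0 k)) = _
      rw [hsw 3 0, hωsw (b (j 3)) (b (j 0))]
      field_simp
    · change φ (fun k => b (J 1 2 k)) = _
      rw [h12, hω12]
      field_simp
    · change φ (fun k => b (J 2 1 k)) = _
      rw [hsw 2 1, h12, hωsw (b (j 2)) (b (j 1)), hω12]
      field_simp
  · rw [hωw c d hcd, mul_zero]
    by_contra hne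
    exact hcd (hnz c d hne).2

theorem decCard : ∀ n : ℕ, n ≤ 4 → Odd n ∨ n = 0 ∨ n = 2 ∨ n = 4 := by
  intro n hn
  interval_cases n
  · right; left; rfl
  · left; decide
  · right; right; left; rfl
  · left; decide
  · right; right; right; rfl

open Classical in
theorem Side.main {g' : Module.End ℂ V} {c' : Fin 3 → ℂ} (S : Side b w j h g c φ)
    (S' : Side b (fun i => -w i) (fun a => j a.rev) (-h) g' c' φ)
    (hc : c 0 = c 2) (ω : V →ₗ[ℂ] V →ₗ[ℂ] ℂ) (hal : ∀ v, ω v v = 0)
    (hωh : Skew ω h) (hωg : Skew ω g) (hω : ω (b (j 0)) (b (j 3)) ≠ 0) (x : Module.End ℂ V)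
    (hx0 : ∀ i, i ∉ Set.range j → x (b i) = 0)
    (hx1 : ∀ k, x (b (j k)) ∈ Submodule.span ℂ (Set.range fun k => b (j k))) (hx2 : Skew ω x)
    (I : ι' → ι) : ∑ k, φ (update (fun i => b (I i)) k (x (b (I k)))) = 0 := by
  by_cases hI : Injective I
  swap
  · unfold Function.Injective at hI
    push Not at hI
    obtain ⟨p, q, h1, h2⟩ := hI
    exact kil_eq x φ (fun i => b (I i)) p q h2 (by simp [h1])
  have hv0 : ∀ k, φ (update (fun i => b (I i)) k 0) = 0 := fun k => φ.map_update_zero _ _
  obtain ⟨A, hA, hcard, -⟩ := S.cnt I hI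
  have h4 : (Finset.univ.filter fun k => I k ∈ Set.range j).card ≤ 4 := by
    rw [← hcard]
    exact (Finset.card_le_univ A).trans (by simp)
  -- extension from the basis vectors
  have ext : ∀ (F G : V →ₗ[ℂ] ℂ), (∀ l, F (b (j l)) = G (b (j l))) →
      ∀ y ∈ Submodule.span ℂ (Set.range fun k => b (j k)), F y = G y := by
    intro F G hFG y hy
    have h1 : Submodule.span ℂ (Set.range fun k => b (j k)) ≤ LinearMap.ker (F - G) := by
      rw [Submodule.span_le]
      rintro _ ⟨l, rfl⟩
      simp [hFG l]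
    have h2 := h1 hy
    simpa [sub_eq_zero] using h2
  rcases decCard _ h4 with h5 | h5 | h5 | h5
  · -- odd
    refine Finset.sum_eq_zero fun k _ => ?_
    by_cases hk : I k ∈ Set.range j
    · obtain ⟨a, ha⟩ := hk
      rw [← ha]
      have h6 := ext (φ.toMultilinearMap.toLinearMap (fun i => b (I i)) k) 0 (fun l => ?_) _ (hx1 a)
      · exact h6
      · change φ (update (fun i => b (I i)) k (b (j l))) = 0
        rw [upd]
        apply oddZero S S'
        have h7 : (Finset.univ.filter fun k' => update I k (j l) k' ∈ Set.range j) =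
            Finset.univ.filter fun k' => I k' ∈ Set.range j := by
          ext k'
          simp only [Finset.mem_filter, Finset.mem_univ, true_and]
          by_cases hkk : k' = k
          · subst hkk
            rw [update_self]
            exact ⟨fun _ => ⟨a, ha⟩, fun _ => ⟨l, rfl⟩⟩
          · rw [update_of_ne hkk]
        rw [h7]
        exact h5
    · rw [hx0 _ hk]
      exact hv0 k
  · -- empty
    rw [Finset.card_eq_zero, Finset.filter_eq_empty_iff] at h5
    refine Finset.sum_eq_zero fun k _ => ?_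
    rw [hx0 _ (h5 (Finset.mem_univ k))]
    exact hv0 k
  · -- two
    obtain ⟨p, q, hpq, hT⟩ := Finset.card_eq_two.1 h5
    obtain ⟨C, hC⟩ := two S hc ω hal hωh hωg hω I p q hpq hT
    have hTk : ∀ k, I k ∈ Set.range j ↔ k = p ∨ k = q := by
      intro k
      have : k ∈ (Finset.univ.filter fun k => I k ∈ Set.range j) ↔ k ∈ ({p, q} : Finset ι') := by
        rw [hT]
      simpa using this
    obtain ⟨a, ha⟩ := (hTk p).2 (Or.inl rfl)
    obtain ⟨a', ha'⟩ := (hTk q).2 (Or.inr rfl)
    rw [← Finset.add_sum_erase _ _ (Finset.mem_univ p),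
      ← Finset.add_sum_erase _ _ (Finset.mem_erase.2 ⟨hpq.symm, Finset.mem_univ q⟩)]
    rw [Finset.sum_eq_zero (fun k hk => ?_), add_zero]
    · rw [← ha, ← ha']
      have h6 : φ (update (fun i => b (I i)) p (x (b (j a)))) = C * ω (x (b (j a))) (b (j a')) := by
        refine ext (φ.toMultilinearMap.toLinearMap (fun i => b (I i)) p)
          (C • ω.flip (b (j a'))) (fun l => ?_) _ (hx1 a)
        change φ (update (fun i => b (I i)) p (b (j l))) = C * ω (b (j l)) (b (j a'))
        rw [upd, ← hC l a']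
        congr 1
        funext k
        congr 1
        by_cases hk : k = q
        · subst hk
          rw [update_self, update_of_ne hpq.symm, ha']
        · rw [update_of_ne hk]
      have h7 : φ (update (fun i => b (I i)) q (x (b (j a')))) = C * ω (b (j a)) (x (b (j a'))) := by
        refine ext (φ.toMultilinearMap.toLinearMap (fun i => b (I i)) q)
          (C • ω (b (j a))) (fun l => ?_) _ (hx1 a')
        change φ (update (fun i => b (I i)) q (b (j l))) = C * ω (b (j a)) (b (j l))
        rw [upd, ← hC a l, ha, update_eq_self]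
      rw [h6, h7, ← mul_add, hx2, mul_zero]
    · simp only [Finset.mem_erase] at hk
      rw [hx0 _ (by rw [hTk, not_or]; exact ⟨hk.2.1, hk.1⟩)]
      exact hv0 k
  · -- four
    have hsum : ∑ k, φ (update (fun i => b (I i)) k (x (b (I k)))) =
        ∑ k ∈ Finset.univ.filter (fun k => I k ∈ Set.range j),
          b.repr (x (b (I k))) (I k) * φ (fun i => b (I i)) := by
      rw [Finset.sum_filter]
      refine Finset.sum_congr rfl fun k _ => ?_
      split_ifs with hk
      · obtain ⟨a, ha⟩ := hk
        rw [← ha]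
        refine ext (φ.toMultilinearMap.toLinearMap (fun i => b (I i)) k)
          (φ (fun i => b (I i)) • b.coord (j a)) (fun l => ?_) _ (hx1 a) |>.trans ?_
        · change φ (update (fun i => b (I i)) k (b (j l))) = φ (fun i => b (I i)) * b.coord (j a) (b (j l))
          by_cases hl : l = a
          · subst hl
            rw [upd, ha, update_eq_self]
            simp
          · have h6 : b.coord (j a) (b (j l)) = 0 := by
              simp only [Basis.coord_apply, Basis.repr_self]
              exact Finsupp.single_eq_of_ne (fun hh => hl (S.inj hh).symm)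
            rw [h6, mul_zero]
            have hAu : A = Finset.univ := by
              rw [← Finset.card_eq_iff_eq_univ, hcard, h5]; simp
            have hlA : l ∈ A := by rw [hAu]; exact Finset.mem_univ l
            obtain ⟨k', hk'⟩ := (hA l).1 hlA
            have hkk : k' ≠ k := by
              rintro rfl
              exact hl (S.inj (hk'.symm.trans ha.symm))
            apply φ.map_eq_zero_of_eq _ (i := k) (j := k') _ hkk.symm
            rw [update_self, update_of_ne hkk, hk']
        · change φ (fun i => b (I i)) * b.coord (j a) (x (b (j a))) = _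
          rw [mul_comm]
          rfl
      · rw [hx0 _ hk]
        exact hv0 k
    rw [hsum, ← Finset.sum_mul]
    have him : (Finset.univ.filter fun k => I k ∈ Set.range j).image I =
        (Finset.univ : Finset (Fin 4)).image j := by
      apply Finset.eq_of_subset_of_card_le
      · intro i hi
        simp only [Finset.mem_image, Finset.mem_filter, Finset.mem_univ, true_and, Set.mem_range] at hi ⊢
        obtain ⟨k, ⟨a, ha⟩, rfl⟩ := hi
        exact ⟨a, ha⟩
      · rw [Finset.card_image_of_injective _ S.inj, Finset.card_image_of_injective _ hI, h5]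
        simp
    have h6 : ∑ k ∈ Finset.univ.filter (fun k => I k ∈ Set.range j), b.repr (x (b (I k))) (I k) =
        ∑ a : Fin 4, b.repr (x (b (j a))) (j a) := by
      rw [← Finset.sum_image (f := fun i => b.repr (x (b i)) i) (g := I) (fun x _ y _ hxy => hI hxy),
        him, Finset.sum_image (fun x _ y _ hxy => S.inj hxy)]
    have hexp : ∀ y ∈ Submodule.span ℂ (Set.range fun k => b (j k)),
        y = ∑ l, b.repr y (j l) • b (j l) := by
      intro y hy
      refine Submodule.span_induction ?_ ?_ ?_ ?_ hy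
      · rintro _ ⟨k, rfl⟩
        rw [Finset.sum_eq_single k]
        · simp
        · intro l _ hl
          simp only [Basis.repr_self]
          rw [Finsupp.single_eq_of_ne (fun hh => hl (S.inj hh)), zero_smul]
        · intro hk; exact absurd (Finset.mem_univ k) hk
      · simp
      · intro y z _ _ h1 h2
        simp only [map_add, Finsupp.add_apply, add_smul, Finset.sum_add_distrib]
        rw [← h1, ← h2]
      · intro t y _ h1
        simp only [map_smul, Finsupp.smul_apply, smul_eq_mul, mul_smul]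
        rw [← Finset.smul_sum, ← h1]
    have hωw := S.ow ω hωh
    have hω12 := S.o12 hc ω hωg
    have t03 : b.repr (x (b (j 0))) (j 0) + b.repr (x (b (j 3))) (j 3) = 0 := by
      have k1 := hx2 (b (j 0)) (b (j 3))
      rw [hexp _ (hx1 0), hexp _ (hx1 3)] at k1
      simp only [Fin.sum_univ_four, map_add, map_smul, LinearMap.add_apply, LinearMap.smul_apply,
        smul_eq_mul] at k1
      rw [hωw 1 3 (by decide), hωw 2 3 (by decide), hωw 3 3 (by decide), hωw 0 0 (by decide),
        hωw 0 1 (by decide), hωw 0 2 (by decide)] at k1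
      have k2 : (b.repr (x (b (j 0))) (j 0) + b.repr (x (b (j 3))) (j 3)) * ω (b (j 0)) (b (j 3)) = 0 := by
        linear_combination k1
      exact (mul_eq_zero.1 k2).resolve_right hω
    have t12 : b.repr (x (b (j 1))) (j 1) + b.repr (x (b (j 2))) (j 2) = 0 := by
      have k1 := hx2 (b (j 1)) (b (j 2))
      rw [hexp _ (hx1 1), hexp _ (hx1 2)] at k1
      simp only [Fin.sum_univ_four, map_add, map_smul, LinearMap.add_apply, LinearMap.smul_apply,
        smul_eq_mul] at k1
      rw [hωw 0 2 (by decide), hωw 2 2 (by decide), hωw 3 2 (by decide), hωw 1 0 (by decide),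
        hωw 1 1 (by decide), hωw 1 3 (by decide), hω12] at k1
      have k2 : (b.repr (x (b (j 1))) (j 1) + b.repr (x (b (j 2))) (j 2)) * ω (b (j 0)) (b (j 3)) = 0 := by
        linear_combination -k1
      exact (mul_eq_zero.1 k2).resolve_right hω
    have h7 : ∑ k ∈ Finset.univ.filter (fun k => I k ∈ Set.range j), b.repr (x (b (I k))) (I k) = 0 := by
      rw [h6, Fin.sum_univ_four]
      linear_combination t03 + t12
    rw [h7, zero_mul]

end

/-- **SW/LOC.** -/
theorem loc : S_LOC := by
  intro V ι ι' _ _ _ _ _ _ b w j ω h e f φ0 hinj hwj hh f0 f1 f2 f3 e0 e1 e2 e3 hout huni hz hp hm hal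
    hωh hωf hω halt kh ke kf x hx0 hx1 hx2
  let φ : V [⋀^ι']→ₗ[ℂ] ℂ :=
    { φ0 with map_eq_zero_of_eq' := fun v k l hv hkl => halt v k l hkl hv }
  have hr : Set.range (fun a : Fin 4 => j a.rev) = Set.range j := by
    ext i
    constructor
    · rintro ⟨a, rfl⟩; exact ⟨_, rfl⟩
    · rintro ⟨a, rfl⟩; exact ⟨a.rev, by simp⟩
  have S : Side b w j h f (fun _ => 1) φ := by
    refine ⟨hinj, hwj, hh, fun _ => one_ne_zero, ?_, f3, hout, huni, ?_, ?_, kh, kf⟩
    · intro a
      fin_cases a
      · simpa using f0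
      · simpa using f1
      · simpa using f2
    · intro i hi hw
      rcases hout i hi with h1 | h1 | h1
      · exact (hz i hi h1).2
      · exact absurd h1 hw
      · exact (hm i hi h1).1
    · intro i hi hw
      exact (hp i hi hw).2
  have S' : Side b (fun i => -w i) (fun a => j a.rev) (-h) e (![3, 4, 3]) φ := by
    refine ⟨hinj.comp Fin.rev_injective, ?_, ?_, ?_, ?_, ?_, ?_, ?_, ?_, ?_, ?_, ke⟩
    · intro k
      simp only [hwj]
      fin_cases k <;> simp [Fin.rev] <;> norm_num
    · intro i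
      simp only [LinearMap.neg_apply, hh]
      push_cast
      module
    · intro a
      fin_cases a <;> norm_num
    · intro a
      fin_cases a
      · exact e3
      · exact e2
      · exact e1
    · exact e0
    · intro i hi
      rw [hr] at hi
      rcases hout i hi with h1 | h1 | h1 <;> simp [h1]
    · intro i i' hi hi' h1 h2
      rw [hr] at hi hi'
      exact huni i i' hi hi' (by simpa using h1) (by simpa using h2)
    · intro i hi hw
      rw [hr] at hi
      rcases hout i hi with h1 | h1 | h1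
      · exact (hz i hi h1).1
      · exact (hp i hi h1).1
      · exact absurd (by simp [h1]) hw
    · intro i hi hw
      rw [hr] at hi ⊢
      have h1 := (hm i hi (by linarith)).2
      have h2 : {i' | i' ∉ Set.range j ∧ -w i' = -1} = {i' | i' ∉ Set.range j ∧ w i' = 1} := by
        ext i'
        simp only [Set.mem_ofPred_eq]
        constructor
        · rintro ⟨a, b⟩; exact ⟨a, by linarith⟩
        · rintro ⟨a, b⟩; exact ⟨a, by linarith⟩
      rw [h2]
      exact h1
    · intro v
      have h1 := kh v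
      have h2 : ∀ k, φ.toMultilinearMap (update v k ((-h) (v k))) = -φ0 (update v k (h (v k))) := by
        intro k
        rw [LinearMap.neg_apply, MultilinearMap.map_update_neg]
      simp only [h2, Finset.sum_neg_distrib, h1, neg_zero]
  apply kil_of_basis b
  intro I
  exact S.main S' rfl ω hal hωh hωf hω x hx0 hx1 hx2 I

end Pool.Agent.P8H57.SW.Loc
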